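import Mathlib

set_option autoImplicit false

namespace Pool.Agent.Results.MP_441f99_an.Yes

open Finset Filter Topology
open scoped Classical

/-- the combinatorial norm -/
noncomputable def nrm (F : Set (Finset ℕ)) (x : ℕ →₀ ℝ) : ℝ := ⨆ A : F, ∑ i ∈ A.1, |x i|

/-- supported normalized block basic sequences -/
def Block (F : Set (Finset ℕ)) (x : ℕ → ℕ →₀ ℝ) : Prop :=
  ∀ n, (∀ i ∈ (x n).support, ∀ j ∈ (x (n + 1)).support, i < j) ∧ nrm F (x n) = 1 ∧
    (x n).support ∈ F

/-- closure of the family -/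
def clos (F : Set (Finset ℕ)) : Set (Set ℕ) := {A | ∀ B : Finset ℕ, ↑B ⊆ A → B ∈ F}

/-- coordinate projection -/
noncomputable def proj (A : Set ℕ) (x : ℕ →₀ ℝ) : ℕ →₀ ℝ := x.filter (· ∈ A)

theorem nrm_eq {F : Set (Finset ℕ)} {y : ℕ →₀ ℝ} (h : y.support ∈ F) :
    nrm F y = ∑ i ∈ y.support, |y i| := by
  have le : ∀ A : F, ∑ i ∈ A.1, |y i| ≤ ∑ i ∈ y.support, |y i| := fun A =>
    (sum_le_sum_of_subset_of_nonneg subset_union_left fun _ _ _ => abs_nonneg _).trans
      (sum_subset subset_union_right fun i _ hi => by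
        simp [Finsupp.notMem_support_iff.1 hi]).ge
  have : Nonempty F := ⟨⟨_, h⟩⟩
  exact le_antisymm (ciSup_le le) (le_ciSup (f := fun A : F => ∑ i ∈ A.1, |y i|)
    ⟨_, by rintro _ ⟨A, rfl⟩; exact le A⟩ ⟨_, h⟩)

/-- mass on a set -/
noncomputable def t (u : ℕ → Bool) (y : ℕ →₀ ℝ) : ℝ := ∑ i ∈ y.support, if u i then |y i| else 0

/-- closure as Boolean sequences -/
def K (F : Set (Finset ℕ)) : Set (ℕ → Bool) := {u | ∀ B : Finset ℕ, (∀ i ∈ B, u i) → B ∈ F}

theorem t_nonneg (u : ℕ → Bool) (y : ℕ →₀ ℝ) : 0 ≤ t u y :=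
  sum_nonneg fun i _ => by split_ifs <;> positivity

theorem t_eq (u : ℕ → Bool) (y : ℕ →₀ ℝ) {S : Finset ℕ} (h : y.support ⊆ S) :
    t u y = ∑ i ∈ S, if u i then |y i| else 0 :=
  sum_subset h fun i _ hi => by simp [Finsupp.notMem_support_iff.1 hi]

theorem l1_proj (A : Set ℕ) (y : ℕ →₀ ℝ) :
    ∑ i ∈ (proj A y).support, |proj A y i| = t (fun i => decide (i ∈ A)) y := by
  rw [proj, Finsupp.support_filter, sum_filter]
  exact sum_congr rfl fun i _ => by by_cases h : i ∈ A <;> simp [h]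

theorem K_closed (F : Set (Finset ℕ)) : IsClosed (K F) := by
  simp only [K, Set.ofPred_forall]
  refine isClosed_iInter fun B => ?_
  by_cases h : B ∈ F
  · simp [h]
  · have : IsOpen {u : ℕ → Bool | ∀ i ∈ B, u i} := by
      simp only [Set.ofPred_forall]
      refine isOpen_biInter_finset fun i _ => ?_
      exact (isOpen_discrete ({true} : Set Bool)).preimage
        (continuous_apply (A := fun _ : ℕ => Bool) i)
    convert this.isClosed_compl using 1
    ext u; simp [h]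

theorem tails {F : Set (Finset ℕ)}
    (H : ∀ x, Block F x → ∀ C : ℝ, ∃ u ∈ K F, ∃ N, C < ∑ n ∈ range N, t u (x n))
    {x : ℕ → ℕ →₀ ℝ} (hx : Block F x) {a : ℕ → ℝ} (ha : ∀ n, 0 ≤ a n) {C : ℝ}
    (hC : ∀ u ∈ K F, ∀ N, ∑ n ∈ range N, a n * t u (x n) ≤ C) {η : ℝ} (η0 : 0 < η) :
    ∃ M, ∀ u ∈ K F, ∀ N, ∑ n ∈ Ico M N, a n * t u (x n) ≤ η := by
  by_contra c
  push Not at c
  choose u u1 N u2 using c
  have lt : ∀ m n, m < n → ∀ i ∈ (x m).support, ∀ j ∈ (x n).support, i < j := by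
    intro m n h
    induction h with
    | refl => exact (hx m).1
    | @step n _ ih =>
      intro i hi j hj
      obtain ⟨k, hk⟩ : (x n).support.Nonempty := by
        rw [nonempty_iff_ne_empty]; intro e
        have := (hx n).2.1
        rw [nrm_eq (hx n).2.2, e] at this; simp at this
      exact (ih i hi k hk).trans ((hx n).1 k hk j hj)
  let M : ℕ → ℕ := fun k => N^[k] 0
  have hM : ∀ k, M (k + 1) = N (M k) := fun k => Function.iterate_succ_apply' _ _ _
  have mono : ∀ k, M k ≤ M (k + 1) := fun k => by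
    by_contra d
    have := u2 (M k)
    rw [← hM, Ico_eq_empty (by omega), sum_empty] at this
    linarith
  let s : ℕ → ℝ := fun k => ∑ n ∈ Ico (M k) (M (k + 1)), a n * t (u (M k)) (x n)
  have hs : ∀ k, η < s k := fun k => by simp only [s, hM]; exact u2 _
  let S : ℕ → Finset ℕ := fun k => (Ico (M k) (M (k + 1))).biUnion fun n => (x n).support
  let z : ℕ → ℕ →₀ ℝ := fun k => Finsupp.onFinset (S k) (fun i => (s k)⁻¹ *
      ∑ n ∈ Ico (M k) (M (k + 1)), a n * if u (M k) i then |x n i| else 0) fun i hi => by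
    obtain ⟨n, h1, h2⟩ := exists_ne_zero_of_sum_ne_zero (right_ne_zero_of_mul hi)
    exact mem_biUnion.2 ⟨n, h1, Finsupp.mem_support_iff.2 fun e => h2 (by simp [e])⟩
  have zs : ∀ k, (z k).support ⊆ S k := fun k => Finsupp.support_onFinset_subset
  have z0 : ∀ k i, |z k i| = (s k)⁻¹ *
      ∑ n ∈ Ico (M k) (M (k + 1)), a n * if u (M k) i then |x n i| else 0 := fun k i =>
    abs_of_nonneg (mul_nonneg (inv_nonneg.2 (η0.trans (hs k)).le) (sum_nonneg fun n _ =>
      mul_nonneg (ha n) (by split_ifs <;> positivity)))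
  have zF : ∀ k, (z k).support ∈ F := fun k => u1 (M k) _ fun i hi => by
    by_contra d
    exact abs_ne_zero.2 (Finsupp.mem_support_iff.1 hi) (by simp [z0, d])
  have tz : ∀ v k, t v (z k) = (s k)⁻¹ * ∑ n ∈ Ico (M k) (M (k + 1)),
      a n * t (fun i => v i && u (M k) i) (x n) := fun v k => by
    have e : ∑ n ∈ Ico (M k) (M (k + 1)), a n * t (fun i => v i && u (M k) i) (x n) =
        ∑ n ∈ Ico (M k) (M (k + 1)), ∑ i ∈ S k,
          a n * if (v i && u (M k) i) then |x n i| else 0 := sum_congr rfl fun n hn => by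
      rw [t_eq _ (x n) (subset_biUnion_of_mem (fun n => (x n).support) hn), mul_sum]
    rw [t_eq v _ (zs k), e, sum_comm, mul_sum]
    refine sum_congr rfl fun i _ => ?_
    cases v i <;> simp [z0]
  obtain ⟨v, v1, L, v2⟩ := H z (fun k => ⟨fun i hi j hj => by
    obtain ⟨m, m1, m2⟩ := mem_biUnion.1 (zs _ hi)
    obtain ⟨n, n1, n2⟩ := mem_biUnion.1 (zs _ hj)
    exact lt m n ((mem_Ico.1 m1).2.trans_le (mem_Ico.1 n1).1) i m2 j n2, by
    have := tz (fun _ => true) k
    simp only [Bool.true_and] at this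
    rw [nrm_eq (zF k), ← inv_mul_cancel₀ (η0.trans (hs k)).ne', ← this]
    simp [t], zF k⟩) (η⁻¹ * C)
  have : ∑ k ∈ range L, t v (z k) ≤ η⁻¹ * ∑ n ∈ range (M L), a n * t v (x n) := by
    clear v2
    induction L with
    | zero => simp [M]
    | succ L ih =>
      rw [sum_range_succ, ← sum_range_add_sum_Ico _ (mono L), mul_add, tz]
      refine add_le_add ih (mul_le_mul (inv_anti₀ η0 (hs L).le) (sum_le_sum fun n _ =>
        mul_le_mul_of_nonneg_left (sum_le_sum fun i _ => ?_) (ha n))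
        (sum_nonneg fun n _ => mul_nonneg (ha n) (t_nonneg _ _)) (by positivity))
      beta_reduce
      cases v i <;> cases u (M L) i <;> simp
  have := mul_le_mul_of_nonneg_left (hC v v1 (M L)) (inv_pos.2 η0).le
  linarith

/-- weights, base values and partial sums -/
noncomputable def st (F : Set (Finset ℕ)) (x : ℕ → ℕ →₀ ℝ) : ℕ → ℝ × ℝ × ((ℕ → Bool) → ℝ)
  | 0 => (1, 0, 0)
  | n + 1 =>
    let p := st F x n
    let f := fun u => p.2.2 u + p.1 * t u (x n)
    if p.2.1 + p.1 ≤ sSup (f '' K F) then (p.1 / 2, sSup (f '' K F), f) else (p.1, p.2.1, f)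

theorem main {F : Set (Finset ℕ)} (h0 : ∅ ∈ F)
    (H : ∀ x, Block F x → ∀ C : ℝ, ∃ u ∈ K F, ∃ N, C < ∑ n ∈ range N, t u (x n))
    {x : ℕ → ℕ →₀ ℝ} (hx : Block F x) : ∃ u ∈ K F, ¬ Summable fun n => t u (x n) := by
  by_contra hs
  push Not at hs
  have ne : (K F).Nonempty := ⟨fun _ => false, fun B hB => by
    rwa [eq_empty_of_forall_notMem (s := B) fun i hi => by simpa using hB i hi]⟩
  have t1 : ∀ u n, t u (x n) ≤ 1 := fun u n => by
    rw [← (hx n).2.1, nrm_eq (hx n).2.2]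
    exact sum_le_sum fun i _ => by split_ifs <;> simp
  let a : ℕ → ℝ := fun n => (st F x n).1
  let b : ℕ → ℝ := fun n => (st F x n).2.1
  let f : ℕ → (ℕ → Bool) → ℝ := fun n => (st F x n).2.2
  have fs : ∀ n, f (n + 1) = fun u => f n u + a n * t u (x n) := fun n => by
    simp only [f, a, st]; split_ifs <;> rfl
  have sw : ∀ n, (b n + a n ≤ sSup (f (n + 1) '' K F) ∧ a (n + 1) = a n / 2 ∧
      b (n + 1) = sSup (f (n + 1) '' K F)) ∨ (sSup (f (n + 1) '' K F) < b n + a n ∧
      a (n + 1) = a n ∧ b (n + 1) = b n) := fun n => by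
    rw [fs]; simp only [f, a, b, st]; split_ifs with h
    exacts [Or.inl ⟨h, rfl, rfl⟩, Or.inr ⟨not_le.1 h, rfl, rfl⟩]
  have fe : ∀ u n, f n u = ∑ i ∈ range n, a i * t u (x i) := fun u n => by
    induction n with
    | zero => rfl
    | succ n ih => rw [fs, sum_range_succ, ← ih]
  have inv : ∀ n, 0 < a n ∧ b n + 4 * a n ≤ 4 ∧ ∀ u ∈ K F, f n u ≤ b n + a n := by
    intro n
    induction n with
    | zero => simp [a, b, f, st]
    | succ n ih =>
      obtain ⟨i1, i2, i3⟩ := ih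
      have ub : ∀ u ∈ K F, f (n + 1) u ≤ b n + 2 * a n := fun u hu => by
        rw [fs]; nlinarith [i3 u hu, t1 u n]
      have l1 : sSup (f (n + 1) '' K F) ≤ b n + 2 * a n :=
        csSup_le (ne.image _) (by rintro _ ⟨u, hu, rfl⟩; exact ub u hu)
      have l2 : ∀ u ∈ K F, f (n + 1) u ≤ sSup (f (n + 1) '' K F) := fun u hu =>
        le_csSup ⟨_, by rintro _ ⟨u, hu, rfl⟩; exact ub u hu⟩ ⟨u, hu, rfl⟩
      rcases sw n with ⟨c, d, e⟩ | ⟨c, d, e⟩ <;> rw [d, e] <;>
        exact ⟨by linarith, by linarith, fun u hu => by linarith [l2 u hu]⟩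
  have f4 : ∀ u ∈ K F, ∀ n, f n u ≤ 4 := fun u hu n => by
    linarith [(inv n).1, (inv n).2.1, (inv n).2.2 u hu]
  have anti : Antitone a := antitone_nat_of_succ_le fun n => by
    rcases sw n with ⟨-, d, -⟩ | ⟨-, d, -⟩ <;> linarith [(inv n).1]
  have SW : ∀ n, ∃ m, n ≤ m ∧ b n + a n ≤ sSup (f (m + 1) '' K F) ∧
      b (m + 1) = sSup (f (m + 1) '' K F) := by
    intro n
    by_contra c
    push Not at c
    have cst : ∀ m, n ≤ m → a m = a n ∧ b m = b n := by
      intro m hm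
      induction hm with
      | refl => exact ⟨rfl, rfl⟩
      | @step m hm ih =>
        rcases sw m with ⟨p, -, q⟩ | ⟨-, p, q⟩
        · exact absurd q (c m hm (by rwa [← ih.1, ← ih.2]))
        · exact ⟨p.trans ih.1, q.trans ih.2⟩
    obtain ⟨u, hu, N, hN⟩ := H x hx (4 / a n)
    rw [div_lt_iff₀ (inv n).1, sum_mul] at hN
    refine absurd (f4 u hu N) (not_le.2 (hN.trans_le ?_))
    rw [fe]
    refine sum_le_sum fun i _ => ?_
    rw [mul_comm]
    refine mul_le_mul_of_nonneg_right ?_ (t_nonneg _ _)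
    rcases le_total i n with d | d
    exacts [anti d, (cst i d).1.ge]
  have fm : ∀ u, Monotone fun n => f n u := fun u => monotone_nat_of_le_succ fun n => by
    rw [fs]; exact le_add_of_nonneg_right (mul_nonneg (inv n).1.le (t_nonneg _ _))
  have le : ∀ u ∈ K F, ∀ n, f n u ≤ ⨆ n, f n u := fun u hu n =>
    le_ciSup (f := fun n => f n u) ⟨4, by rintro _ ⟨n, rfl⟩; exact f4 u hu n⟩ n
  have ge : ∀ u M η, (∀ N, ∑ n ∈ Ico M N, a n * t u (x n) ≤ η) → ⨆ n, f n u ≤ f M u + η :=
    fun u M η h => ciSup_le fun N => (fm u (le_max_left N M)).trans (by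
      simp only [fe]
      rw [← sum_range_add_sum_Ico _ (le_max_right N M)]
      linarith [h (max N M)])
  have un : TendstoUniformlyOn f (fun u => ⨆ n, f n u) atTop (K F) := by
    rw [Metric.tendstoUniformlyOn_iff]
    intro ε hε
    obtain ⟨M, hM⟩ := tails H hx (fun n => (inv n).1.le)
      (fun u hu N => fe u N ▸ f4 u hu N) (half_pos hε)
    filter_upwards [eventually_ge_atTop M] with n hn u hu
    rw [Real.dist_eq, abs_of_nonneg (sub_nonneg.2 (le u hu n))]
    linarith [ge u M _ (hM u hu), fm u hn]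
  obtain ⟨u, hu, mx⟩ := (K_closed F).isCompact.exists_isMaxOn ne (un.continuousOn
    (Frequently.of_forall fun n => Continuous.continuousOn (by
      rw [show f n = fun u => ∑ i ∈ range n, a i * t u (x i) from funext fun u => fe u n]
      refine continuous_finsetSum _ fun i _ => continuous_const.mul
        (continuous_finsetSum _ fun j _ => ?_)
      exact (continuous_of_discreteTopology (f := fun c : Bool => if c then |x i j| else 0)).comp
        (continuous_apply j))))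
  obtain ⟨s, hs⟩ := (hs u hu).vanishing (Iic_mem_nhds (show (0 : ℝ) < 1 / 2 by norm_num))
  obtain ⟨m, m1, -, m2⟩ := SW (s.sup id + 1)
  obtain ⟨k, -, k1, -⟩ := SW (m + 1)
  have e1 : sSup (f (k + 1) '' K F) ≤ ⨆ n, f n u := csSup_le (ne.image _) (by
    rintro _ ⟨v, hv, rfl⟩; exact (le v hv _).trans (mx hv))
  have e2 : f (m + 1) u ≤ b (m + 1) :=
    m2 ▸ le_csSup ⟨4, by rintro _ ⟨v, hv, rfl⟩; exact f4 v hv _⟩ ⟨u, hu, rfl⟩
  have e3 := ge u (m + 1) (a (m + 1) * (1 / 2)) fun N => by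
    refine (sum_le_sum fun n hn => mul_le_mul_of_nonneg_right (anti (mem_Ico.1 hn).1)
      (t_nonneg _ _)).trans ?_
    rw [← mul_sum]
    refine mul_le_mul_of_nonneg_left (hs _ (disjoint_left.2 fun n hn c => ?_)) (inv _).1.le
    have := le_sup (f := id) c
    have := (mem_Ico.1 hn).1
    simp only [id] at *
    omega
  linarith [(inv (m + 1)).1]

theorem result : ∀ F : Set (Finset ℕ), (∀ A ∈ F, ∀ B ⊆ A, B ∈ F) → (∀ n, {n} ∈ F) →
    (∀ x, Block F x → ⨆ A ∈ clos F, ∑' n, ENNReal.ofReal (nrm F (proj A (x n))) = ⊤) →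
    ∀ x, Block F x → ∃ A ∈ clos F,
      ∑' n, ENNReal.ofReal (∑ i ∈ (proj A (x n)).support, |proj A (x n) i|) = ⊤ := by
  intro F h1 h2 H x hx
  obtain ⟨u, hu, h⟩ := main (h1 _ (h2 0) _ (empty_subset _)) (fun y hy C => by
    have := H y hy
    by_contra c
    push Not at c
    refine (ne_top_of_le_ne_top (ENNReal.ofReal_ne_top (r := C)) (iSup₂_le fun A hA => ?_)) this
    refine ENNReal.summable.tsum_le_of_sum_range_le fun N => ?_
    have e : ∀ n, nrm F (proj A (y n)) = t (fun i => decide (i ∈ A)) (y n) := fun n => by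
      rw [nrm_eq (h1 _ (hy n).2.2 _ (by rw [proj, Finsupp.support_filter]; exact filter_subset _ _)),
        l1_proj]
    simp only [e]
    rw [← ENNReal.ofReal_sum_of_nonneg fun n _ => t_nonneg _ _]
    exact ENNReal.ofReal_le_ofReal (c _ (fun B hB => hA B fun i hi => by simpa using hB i hi) N)) hx
  refine ⟨{i | u i}, fun B hB => hu B fun i hi => hB hi, ?_⟩
  simp only [l1_proj, Set.mem_ofPred_eq, Bool.decide_eq_true]
  by_contra c
  refine h ((ENNReal.summable_toReal c).congr fun n => ENNReal.toReal_ofReal (t_nonneg _ _))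

end Pool.Agent.Results.MP_441f99_an.Yes
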